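import Pool.Agent.Lib.MP_61fe1c_an.Ext

open scoped Pointwise
open Pool.Agent.Lib.MP_61fe1c_an

namespace Pool.Agent.Results.MP_61fe1c_an.TightFaces

/-- Q1 for polytopes whose facets are translates of the opposite faces and in which every facet
either lies in no belt of length four or has only tight faces that are Minkowski summands. -/
theorem result (n m : ℕ) (A : ConvexBody (Fin n → ℝ)) (B : Set (Fin m → ℝ))
    (hA : (interior (A : Set (Fin n → ℝ))).Nonempty)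
    (hB : Bornology.IsBounded B) (hBm : MeasurableSet B)
    (hpoly : ∃ H : Finset (((Fin n → ℝ) →ₗ[ℝ] ℝ) × ℝ),
      (A : Set (Fin n → ℝ)) = {x | ∀ p ∈ H, p.1 x ≤ p.2})
    (hfacet : ∀ φ : (Fin n → ℝ) →ₗ[ℝ] ℝ,
      vectorSpan ℝ (face (A : Set (Fin n → ℝ)) φ) = LinearMap.ker φ →
      ∃ τ : Fin n → ℝ, face (A : Set (Fin n → ℝ)) φ = τ +ᵥ face (A : Set (Fin n → ℝ)) (-φ))
    (htight : ∀ φ : (Fin n → ℝ) →ₗ[ℝ] ℝ, φ ≠ 0 →
      vectorSpan ℝ (face (A : Set (Fin n → ℝ)) φ) = LinearMap.ker φ →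
      (∀ χ : (Fin n → ℝ) →ₗ[ℝ] ℝ, χ ≠ 0 →
        (face (A : Set (Fin n → ℝ)) φ ∩ face (A : Set (Fin n → ℝ)) χ).Nonempty →
        vectorSpan ℝ (face (A : Set (Fin n → ℝ)) φ ∩ face (A : Set (Fin n → ℝ)) χ) =
          LinearMap.ker φ ⊓ LinearMap.ker χ →
        Disjoint (face (A : Set (Fin n → ℝ)) φ) (face (A : Set (Fin n → ℝ)) (-χ))) ∨
      ∀ ψ : (Fin n → ℝ) →ₗ[ℝ] ℝ,
        face (A : Set (Fin n → ℝ)) ψ ⊆ face (A : Set (Fin n → ℝ)) φ →
        (face (A : Set (Fin n → ℝ)) ψ).Nontrivial →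
        (∀ x ∈ intrinsicFrontier ℝ (face (A : Set (Fin n → ℝ)) ψ),
          ∃ y ∈ face (A : Set (Fin n → ℝ)) ψ,
            x - y ∉ interior ((A : Set (Fin n → ℝ)) - (A : Set (Fin n → ℝ)))) →
        ∃ A' : Set (Fin n → ℝ), (A : Set (Fin n → ℝ)) = face (A : Set (Fin n → ℝ)) ψ + A')
    (hs : isSpectral (N0f6e0b2f.productSet (A : Set (Fin n → ℝ)) B)) : isSpectral B := by
  obtain ⟨H, hH⟩ := hpoly
  exact bridge A.isCompact.measurableSet
    (stmt_of_good _ _ _ rfl (good_of_ext A.convex A.isCompact hA (isH_of_finset H hH) hfacet htight))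
    hBm hB.measure_lt_top.ne hs

end Pool.Agent.Results.MP_61fe1c_an.TightFaces
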