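import Pool.Agent.Lib.MP_61fe1c_an.VD

open Pool.Agent.Lib.MP_61fe1c_an

namespace Pool.Agent.Results.MP_61fe1c_an.VoronoiAll

/-- Q1 for affine images of Voronoi cells of lattices, in every dimension. -/
theorem result (n m : ℕ) (L : Submodule ℤ (EuclideanSpace ℝ (Fin n)))
    [DiscreteTopology L] [IsZLattice ℝ L] (T : (Fin n → ℝ) ≃ᵃ[ℝ] EuclideanSpace ℝ (Fin n))
    (B : Set (Fin m → ℝ)) (hB : Bornology.IsBounded B) (hBm : MeasurableSet B)
    (hs : isSpectral (N0f6e0b2f.productSet (T ⁻¹' {x | ∀ l ∈ L, ‖x‖ ≤ ‖x - l‖}) B)) :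
    isSpectral B := by
  obtain ⟨ρ, h⟩ := exists_lat L
  exact spectral_vor (L := L.toAddSubgroup) h T hB hBm hs

end Pool.Agent.Results.MP_61fe1c_an.VoronoiAll
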